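import Mathlib
import Pool.Agent.V11310.Colored4
import Pool.Agent.V11310.ColoredP
import Pool.Agent.V11310.Tern

namespace Pool.Agent.Results.MP_8976f7_nt.BoundedTernary

open Pool.Agent.V11310.ColoredP

/-- `E_p = {(p-1)(u p^s - 1) : s ≥ 0, 1 ≤ u ≤ p-1}`. -/
def E (p : ℕ) : Set ℕ := {k | ∃ s u : ℕ, 1 ≤ u ∧ u ≤ p - 1 ∧ k = (p - 1) * (u * p ^ s - 1)}

/-- For the prime `3` and `k = 22 ∉ E_3`, the `3`-adic valuation of `A_{3,22}(n)` is at most `5`
for every `n`. -/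
theorem result : Nat.Prime 3 ∧ 22 ∉ E 3 ∧ ∀ n : ℕ, emultiplicity (3 : ℤ) (A 3 22 n) ≤ 5 := by
  refine ⟨Nat.prime_three, ?_, fun n => ?_⟩
  · rintro ⟨s, u, h1, h2, h3⟩
    have h4 : u * 3 ^ s = 12 := by omega
    have h5 : s < 3 := by
      by_contra hcon
      have h6 : 3 ^ 3 ≤ 3 ^ s := Nat.pow_le_pow_right (by norm_num) (by omega)
      nlinarith
    interval_cases s <;> omega
  · have h := emultiplicity_lt_iff_not_dvd.2 (Pool.Agent.V11310.Tern.not_dvd n)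
    exact Order.le_of_lt_add_one (by exact_mod_cast h)

end Pool.Agent.Results.MP_8976f7_nt.BoundedTernary
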